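import Pool.Agent.Helper65.Delone.Goals

/-! MP_c45da2_co, packet C: four linear algebra facts. -/

namespace Pool.Agent.Helper49.Delone

open Module Pool.Agent.Helper65.Delone
open scoped RealInnerProductSpace

variable {E : Type*} [NormedAddCommGroup E] [InnerProductSpace ℝ E]

theorem fixOrth : FixOrth E := by
  intro A v w hw
  have h1 : ⟪A v, w⟫ = ⟪v, w⟫ := by
    conv_lhs => rw [← hw]
    exact A.inner_map_map v w
  rw [inner_sub_left, h1, sub_self]

theorem indep : Indep E := by
  intro A hA v hv
  have hw : A v - v ≠ 0 := sub_ne_zero.mpr hv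
  have hAw' : A (A.symm v - v) = -(A v - v) := by
    rw [map_sub, LinearIsometryEquiv.apply_symm_apply, neg_sub]
  have hnorm : ‖A.symm v - v‖ = ‖A v - v‖ := by
    rw [← A.norm_map (A.symm v - v), hAw', norm_neg]
  have hpos : 0 < ‖A v - v‖ := norm_pos_iff.mpr hw
  rw [LinearIndependent.pair_iff]
  intro s t hst
  have h1 : s • (A v - v) = -(t • (A.symm v - v)) := eq_neg_of_add_eq_zero_left hst
  have h2 : |s| * ‖A v - v‖ = |t| * ‖A v - v‖ := by
    have := congrArg norm h1
    rw [norm_neg, norm_smul, norm_smul, hnorm, Real.norm_eq_abs, Real.norm_eq_abs] at this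
    exact this
  have h3 : |s| = |t| := mul_right_cancel₀ hpos.ne' h2
  by_cases hs : s = 0
  · refine ⟨hs, ?_⟩
    rw [hs, abs_zero] at h3
    exact abs_eq_zero.mp h3.symm
  · exfalso
    rcases abs_eq_abs.mp h3 with h | h
    · -- s = t
      rw [← h, ← smul_neg] at h1
      have h4 : A v - v = -(A.symm v - v) := smul_right_injective E hs h1
      have h5 : A (A v - v) = A v - v := by
        conv_lhs => rw [h4]
        rw [map_neg, hAw', neg_neg]
      have h6 := fixOrth A v (A v - v) h5
      rw [inner_self_eq_zero] at h6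
      exact hw h6
    · -- s = - t
      have h7 : s • (A v - v) = s • (A.symm v - v) := by
        rw [h1, h, neg_smul]
      have h4 : A v - v = A.symm v - v := smul_right_injective E hs h7
      have h5 : A (A v - v) = -(A v - v) := by
        conv_lhs => rw [h4]
        exact hAw'
      have h6 := hA (A v - v)
      have h8 : A (A v - v) - (A v - v) = (-2 : ℝ) • (A v - v) := by
        rw [h5]; module
      rw [h8, norm_smul] at h6
      norm_num at h6
      linarith

theorem smallCodim [FiniteDimensional ℝ E] : SmallCodim E := by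
  intro A hA hA1
  have hF : fixSpace A ≠ ⊤ := by
    intro h
    apply hA1
    ext v
    have : v ∈ fixSpace A := by rw [h]; exact Submodule.mem_top
    exact this
  have hperp : (fixSpace A)ᗮ ≠ ⊥ := by
    intro h
    exact hF ((Submodule.orthogonal_eq_bot_iff).mp h)
  obtain ⟨u, hu, hu0⟩ := Submodule.exists_mem_ne_zero_of_ne_bot hperp
  have hAu : A u ≠ u := by
    intro h
    have h1 : u ∈ fixSpace A := h
    have h2 := (Submodule.mem_orthogonal _ _).mp hu u h1
    rw [inner_self_eq_zero] at h2
    exact hu0 h2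
  have hind := indep A hA u hAu
  have hw : A u - u ∈ (fixSpace A)ᗮ := by
    rw [Submodule.mem_orthogonal]
    intro f hf
    rw [real_inner_comm]
    exact fixOrth A u f hf
  have hw' : A.symm u - u ∈ (fixSpace A)ᗮ := by
    rw [Submodule.mem_orthogonal]
    intro f hf
    rw [real_inner_comm]
    refine fixOrth A.symm u f ?_
    have h1 : A f = f := hf
    rw [LinearIsometryEquiv.symm_apply_eq, h1]
  have h1 : finrank ℝ (Submodule.span ℝ (Set.range ![A u - u, A.symm u - u])) = 2 := by
    rw [finrank_span_eq_card hind]; simp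
  have h2 : Submodule.span ℝ (Set.range ![A u - u, A.symm u - u]) ≤ (fixSpace A)ᗮ := by
    rw [Submodule.span_le]
    rintro x ⟨i, rfl⟩
    fin_cases i
    · exact hw
    · exact hw'
  have h3 := Submodule.finrank_mono h2
  have h4 := Submodule.finrank_add_finrank_orthogonal (fixSpace A)
  omega

theorem average : Average E := by
  intro A N P hN hAN hP a m ha hm
  obtain ⟨s, hs⟩ : ∃ s : E, s = ∑ k ∈ Finset.range N, (A ^ k) a := ⟨_, rfl⟩
  have hAs : A s = s := by
    have h1 : A s = ∑ k ∈ Finset.range N, (A ^ (k + 1)) a := by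
      rw [hs, map_sum]
      refine Finset.sum_congr rfl fun k _ => ?_
      rw [pow_succ']
      rfl
    have h2 := Finset.sum_range_succ (fun k => (A ^ k) a) N
    have h3 := Finset.sum_range_succ' (fun k => (A ^ k) a) N
    rw [h3] at h2
    rw [h1, hs]
    have h4 : (A ^ 0) a = (A ^ N) a := by rw [hAN, pow_zero]
    rw [h4] at h2
    exact add_right_cancel h2
  have hsP : s ∈ P := (hP s).mp hAs
  have hpow : ∀ k : ℕ, (A ^ k) s = s := by
    intro k
    induction k with
    | zero => rw [pow_zero]; rfl
    | succ k ih =>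
      rw [pow_succ']
      show A ((A ^ k) s) = s
      rw [ih, hAs]
  have hs0 : s = 0 := by
    rw [← inner_self_eq_zero (𝕜 := ℝ)]
    have h1 : ⟪s, s⟫ = ∑ k ∈ Finset.range N, ⟪s, (A ^ k) a⟫ := by
      conv_lhs => rhs; rw [hs]
      rw [inner_sum]
    rw [h1]
    refine Finset.sum_eq_zero fun k _ => ?_
    have h2 : ⟪s, (A ^ k) a⟫ = ⟪(A ^ k) s, (A ^ k) a⟫ := by rw [hpow k]
    rw [h2, (A ^ k).inner_map_map]
    exact ha s hsP
  have h1 : (0 : ℝ) = ∑ k ∈ Finset.range N, ⟪m, (A ^ k) a⟫ := by
    rw [← inner_sum, ← hs, hs0, inner_zero_right]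
  have h2 : ∑ k ∈ Finset.range N, ⟪m, (A ^ k) a⟫ ≤ ∑ _k ∈ Finset.range N, ⟪m, a⟫ :=
    Finset.sum_le_sum fun k _ => hm k
  rw [← h1, Finset.sum_const, Finset.card_range, nsmul_eq_mul] at h2
  have hN' : (0 : ℝ) < N := by exact_mod_cast hN
  by_contra hneg
  push Not at hneg
  nlinarith

end Pool.Agent.Helper49.Delone
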