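import Pool.Agent.Helper65.Delone.Goals

/-! MP_c45da2_co, packets H and I. -/

namespace Pool.Agent.Helper49.Delone

open Module Pool.Agent.Helper65.Delone
open scoped RealInnerProductSpace

variable {E : Type*} [NormedAddCommGroup E] [InnerProductSpace ℝ E] [FiniteDimensional ℝ E]

theorem finiteOrder (hf : FiniteNear E) (hp : ExistsPos E) : FiniteOrder E := by
  intro X D R hD hX x hx A hA
  obtain ⟨K, hK⟩ : ∃ K : Set E, K = {v | x + v ∈ X ∧ ‖v‖ ≤ 2 * R} := ⟨_, rfl⟩
  have hKfin : K.Finite := by
    have h1 := hf X D hD hX.sep x (2 * R)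
    have h2 : K = (fun z => z - x) '' {z | z ∈ X ∧ ‖x - z‖ ≤ 2 * R} := by
      rw [hK]
      ext v
      constructor
      · rintro ⟨h1, h2⟩
        exact ⟨x + v, ⟨h1, by rw [sub_add_cancel_left, norm_neg]; exact h2⟩, by simp⟩
      · rintro ⟨z, ⟨h1, h2⟩, rfl⟩
        refine ⟨by simpa using h1, ?_⟩
        rw [norm_sub_rev]
        exact h2
    rw [h2]
    exact h1.image _
  have hmap : ∀ v ∈ K, A v ∈ K := by
    intro v hv
    rw [hK] at hv ⊢
    exact ⟨(hA v hv.2).mp hv.1, by rw [A.norm_map]; exact hv.2⟩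
  have hmapn : ∀ n : ℕ, ∀ v ∈ K, (A ^ n) v ∈ K := by
    intro n
    induction n with
    | zero => intro v hv; rw [pow_zero]; exact hv
    | succ n ih =>
      intro v hv
      rw [pow_succ']
      exact hmap _ (ih v hv)
  have : Finite K := hKfin
  obtain ⟨m, n, hmn, hfmn⟩ := Finite.exists_ne_map_eq_of_infinite
    (fun n : ℕ => (fun v : K => (⟨(A ^ n) v, hmapn n v v.2⟩ : K)))
  have key : ∀ m n : ℕ, m < n → (∀ v ∈ K, (A ^ m) v = (A ^ n) v) →
      ∃ N : ℕ, 0 < N ∧ A ^ N = 1 := by
    intro m n hmn h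
    refine ⟨n - m, by omega, ?_⟩
    have hfix : ∀ v ∈ K, (A ^ (n - m)) v = v := by
      intro v hv
      have h1 := h v hv
      have h2 : A ^ n = A ^ m * A ^ (n - m) := by
        rw [← pow_add]; congr 1; omega
      rw [h2] at h1
      have h3 : (A ^ m) v = (A ^ m) ((A ^ (n - m)) v) := h1
      exact ((A ^ m).injective h3).symm
    by_contra hne
    have hF : fixSpace (A ^ (n - m)) ≠ ⊤ := by
      intro h
      apply hne
      ext v
      have : v ∈ fixSpace (A ^ (n - m)) := by rw [h]; exact Submodule.mem_top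
      exact this
    have hperp : (fixSpace (A ^ (n - m)))ᗮ ≠ ⊥ := by
      intro h
      exact hF ((Submodule.orthogonal_eq_bot_iff).mp h)
    obtain ⟨u, hu, hu0⟩ := Submodule.exists_mem_ne_zero_of_ne_bot hperp
    obtain ⟨z, hz, hzn, hzu⟩ := hp X D R hD hX x u hx hu0
    have hzK : z - x ∈ K := by
      rw [hK]
      exact ⟨by simpa using hz, hzn⟩
    have := (Submodule.mem_orthogonal _ _).mp hu (z - x) (hfix _ hzK)
    linarith
  rcases lt_or_gt_of_ne hmn with h | h
  · exact key m n h fun v hv => congrArg Subtype.val (congrFun hfmn ⟨v, hv⟩)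
  · exact key n m h fun v hv => (congrArg Subtype.val (congrFun hfmn ⟨v, hv⟩)).symm

theorem caseInit (hM : LemM E) (hI : StepI E) : CaseInit E := by
  intro X D R W S Q hD hX hFr hRW hne
  obtain ⟨x, hx⟩ := hne
  have hnear : ∀ q a b : E, a ∈ Con X q → b ∈ Con X q → ‖b - a‖ ≤ 2 * R := by
    intro q a b ha hb
    obtain ⟨p, hp, hpR⟩ := hX.dens q
    have h1 : ‖q - a‖ ≤ R := le_trans (ha.2 p hp) hpR
    have h2 : ‖q - b‖ ≤ R := le_trans (hb.2 p hp) hpR
    have h3 : b - a = (q - a) - (q - b) := by abel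
    rw [h3]
    refine le_trans (norm_sub_le _ _) ?_
    linarith
  have hperp : (Q x)ᗮ ≠ ⊥ := by
    intro h
    exact hFr.Q_lt x hx ((Submodule.orthogonal_eq_bot_iff).mp h)
  obtain ⟨u, hu, hu0⟩ := Submodule.exists_mem_ne_zero_of_ne_bot hperp
  have hxx : x ∈ Con X x := ⟨hx, fun z _ => by rw [sub_self, norm_zero]; exact norm_nonneg _⟩
  obtain ⟨s, _, hxs, ⟨z, hzs, hzu⟩, _⟩ := hM X D R hD hX x x hxx u hu0
  obtain ⟨q', hq'⟩ : ∃ q', q' = x + s • u := ⟨_, rfl⟩
  rw [← hq'] at hxs hzs
  have hz : z ∈ X := hzs.1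
  have hzx : z - x ∉ Q x := by
    intro h
    have := (Submodule.mem_orthogonal _ _).mp hu (z - x) h
    linarith
  have hn1 := hnear q' x z hxs hzs
  obtain ⟨horth, h, hh, p, hp, hsum, hp0, _⟩ := hI X (2 * R) W S Q hFr x hx z hz hn1
    (lt_of_le_of_lt hn1 hRW) hzx
  by_cases hh0 : h = 0
  · -- second stage
    have hzxp : z - x = p := by rw [hsum, hh0, zero_add]
    have hQx : Q x ≠ ⊥ := by
      intro hb
      have := hFr.Q_rank x hx
      rw [hb, finrank_bot] at this
      omega
    obtain ⟨v, hv, hv0⟩ := Submodule.exists_mem_ne_zero_of_ne_bot hQx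
    have hzxv : ⟪z - x, v⟫ = 0 := by
      rw [hzxp, real_inner_comm]
      exact horth v hv p hp
    obtain ⟨t, _, hxt, ⟨y, hyt, hyv⟩, hall⟩ := hM X D R hD hX q' x hxs v hv0
    obtain ⟨q'', hq''⟩ : ∃ q'', q'' = q' + t • v := ⟨_, rfl⟩
    have hzt := hall z hzs hzxv
    rw [← hq''] at hxt hyt hzt
    have hy : y ∈ X := hyt.1
    have hyz : y - z ∉ Q z := by
      intro hmem
      have h1 : ⟪y - z, v⟫ = 0 := by
        rw [real_inner_comm]
        exact horth v hv (y - z) hmem
      have h2 : y - x = (y - z) + (z - x) := by abel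
      rw [h2, inner_add_left, h1, hzxv] at hyv
      linarith
    have hn2 := hnear q'' z y hzt hyt
    obtain ⟨horth', h', hh', p', hp', hsum', hp0', _⟩ := hI X (2 * R) W S Q hFr z hz y hy hn2
      (lt_of_le_of_lt hn2 hRW) hyz
    by_cases hh0' : h' = 0
    · exfalso
      have hyzp : y - z = p' := by rw [hsum', hh0', zero_add]
      have hzz : z - x ∈ Q z := by rw [hzxp]; exact hp
      have hyy : y - z ∈ Q y := by rw [hyzp]; exact hp'
      by_cases hyx : y - x ∈ Q x
      · have h1 : ⟪z - x, y - x⟫ = 0 := by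
          rw [real_inner_comm]
          exact horth _ hyx _ hzz
        have h2 : ⟪z - x, y - z⟫ = 0 := horth' _ hzz _ hyy
        have h3 : ⟪z - x, z - x⟫ = 0 := by
          have h4 : z - x = (y - x) - (y - z) := by abel
          conv_lhs => rhs; rw [h4]
          rw [inner_sub_right, h1, h2, sub_zero]
        rw [inner_self_eq_zero, hzxp] at h3
        exact hp0 h3
      · have hn3 := hnear q'' x y hxt hyt
        obtain ⟨horth'', _⟩ := hI X (2 * R) W S Q hFr x hx y hy hn3
          (lt_of_le_of_lt hn3 hRW) hyx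
        have h1 : ⟪y - z, v⟫ = 0 := by
          rw [real_inner_comm]
          exact horth'' v hv _ hyy
        have h2 : y - x = (y - z) + (z - x) := by abel
        rw [h2, inner_add_left, h1, hzxv] at hyv
        linarith
    · refine ⟨q'', z + h', z, hzt, y, hyt, horth', ?_, ?_, ?_, ?_⟩
      · simpa using hh'
      · have : z + h' - y = -p' := by
          have : h' + p' = y - z := hsum'.symm
          have h5 : p' = y - z - h' := by rw [← this]; abel
          rw [h5]; abel
        rw [this]
        exact (Q y).neg_mem hp'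
      · intro h5
        exact hh0' (by simpa using h5)
      · intro h5
        apply hp0'
        have h6 : h' + p' = y - z := hsum'.symm
        have h7 : h' = y - z := by rw [← h5]; abel
        rw [h7] at h6
        simpa using h6
  · refine ⟨q', x + h, x, hxs, z, hzs, horth, ?_, ?_, ?_, ?_⟩
    · simpa using hh
    · have : x + h - z = -p := by
        have : h + p = z - x := hsum.symm
        have h5 : p = z - x - h := by rw [← this]; abel
        rw [h5]; abel
      rw [this]
      exact (Q z).neg_mem hp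
    · intro h5
      exact hh0 (by simpa using h5)
    · intro h5
      apply hp0
      have h6 : h + p = z - x := hsum.symm
      have h7 : h = z - x := by rw [← h5]; abel
      rw [h7] at h6
      simpa using h6

end Pool.Agent.Helper49.Delone
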